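import Mathlib

/-!
# The Thue-Morse extension of the 2-adic odometer: algebra
-/

set_option autoImplicit false

namespace Pool.Agent.H110.TP

open PadicInt

/-- the residue of a 2-adic integer modulo `2 ^ m`, as a natural number -/
noncomputable def R (m : ℕ) (z : ℤ_[2]) : ℕ := (toZModPow m z).val

instance (m : ℕ) : NeZero (2 ^ m) := ⟨pow_ne_zero m two_ne_zero⟩

theorem R_lt (m : ℕ) (z : ℤ_[2]) : R m z < 2 ^ m := ZMod.val_lt _

theorem cast_R (m : ℕ) (z : ℤ_[2]) : ((R m z : ℕ) : ZMod (2 ^ m)) = toZModPow m z := by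
  rw [R, ZMod.natCast_zmod_val]

theorem R_eq_of {m a : ℕ} {z : ℤ_[2]} (ha : a < 2 ^ m) (h : toZModPow m z = (a : ZMod (2 ^ m))) :
    R m z = a := by
  rw [R, h, ZMod.val_natCast, Nat.mod_eq_of_lt ha]

theorem R_natCast (m n : ℕ) : R m (n : ℤ_[2]) = n % 2 ^ m := by
  rw [R, map_natCast, ZMod.val_natCast]

theorem R_add_nat (m n : ℕ) (z : ℤ_[2]) : R m (z + n) = (R m z + n) % 2 ^ m := by
  have : toZModPow m (z + (n : ℤ_[2])) = ((R m z + n : ℕ) : ZMod (2 ^ m)) := by
    rw [map_add, map_natCast, Nat.cast_add, cast_R]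
  rw [R, this, ZMod.val_natCast]

theorem R_mod {i j : ℕ} (h : i ≤ j) (z : ℤ_[2]) : R j z % 2 ^ i = R i z := by
  symm
  apply R_eq_of (Nat.mod_lt _ (pow_pos two_pos i))
  have h1 := cast_toZModPow i j h z
  rw [← h1, ← cast_R j z, ZMod.natCast_mod, ZMod.cast_natCast (pow_dvd_pow 2 h)]

/-- if `z + n` does not leave `[0, 2 ^ m)` modulo `2 ^ m` -/
theorem R_add_int {m a b : ℕ} {z : ℤ_[2]} {n : ℤ} (ha : R m z = a) (hb : b < 2 ^ m)
    (h : (b : ℤ) = a + n) : R m (z + n) = b := by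
  apply R_eq_of hb
  have : (b : ZMod (2 ^ m)) = ((b : ℤ) : ZMod (2 ^ m)) := by simp
  rw [this, h, map_add, map_intCast, ← cast_R, ha]
  push_cast
  rfl

theorem eq_iff_R {z w : ℤ_[2]} : z = w ↔ ∀ m, R m z = R m w := by
  constructor
  · rintro rfl m
    rfl
  · intro h
    apply ext_of_toZModPow.1
    intro m
    rw [← cast_R, ← cast_R, h m]

theorem R_mono_eq {i j : ℕ} (h : i ≤ j) {z w : ℤ_[2]} (hz : R j z = R j w) : R i z = R i w := by
  rw [← R_mod h, ← R_mod h, hz]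

theorem dvd_iff_R (i : ℕ) (w : ℤ_[2]) : w ∈ Ideal.span {(2 : ℤ_[2]) ^ i} ↔ R i w = 0 := by
  have h := ker_toZModPow (p := 2) i
  have h2 : w ∈ RingHom.ker (toZModPow (p := 2) i) ↔ w ∈ Ideal.span {((2 : ℕ) : ℤ_[2]) ^ i} := by
    rw [h]
  rw [RingHom.mem_ker] at h2
  simp only [Nat.cast_ofNat] at h2
  rw [← h2, R, ZMod.val_eq_zero]

theorem valuation_eq {m c : ℕ} {w : ℤ_[2]} (h0 : 0 < c) (hc : c < 2 ^ m) (h : R m w = c) :
    w.valuation = padicValNat 2 c := by
  have hw : w ≠ 0 := by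
    rintro rfl
    have : R m (0 : ℤ_[2]) = 0 := by simp [R]
    omega
  have key : ∀ i, i ≤ m → (i ≤ w.valuation ↔ i ≤ padicValNat 2 c) := by
    intro i hi
    have h1 := mem_span_pow_iff_le_valuation w hw i
    simp only [Nat.cast_ofNat] at h1
    rw [← h1, dvd_iff_R, ← R_mod hi, h, ← Nat.dvd_iff_mod_eq_zero,
      padicValNat_dvd_iff_le (p := 2) (by omega)]
  have hm1 : ¬ m ≤ padicValNat 2 c := by
    rw [← padicValNat_dvd_iff_le (p := 2) (by omega)]
    intro hd
    have := Nat.le_of_dvd h0 hd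
    omega
  have hm2 : ¬ m ≤ w.valuation := by
    rw [key m le_rfl]
    exact hm1
  apply le_antisymm
  · rw [← key _ (by omega)]
  · rw [key _ (by omega)]

/-- the cocycle -/
noncomputable def phi (z : ℤ_[2]) : ZMod 2 := 1 + ((z + 1).valuation : ZMod 2)

/-- the Thue-Morse sequence -/
noncomputable def tt (n : ℕ) : ZMod 2 :=
  ∑ i ∈ Finset.range n, (1 + (padicValNat 2 (i + 1) : ZMod 2))

theorem tt_zero : tt 0 = 0 := by simp [tt]

theorem tt_succ (n : ℕ) : tt (n + 1) = tt n + (1 + (padicValNat 2 (n + 1) : ZMod 2)) := by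
  rw [tt, Finset.sum_range_succ, ← tt]

theorem phi_eq {m a : ℕ} {z : ℤ_[2]} (ha : R m z = a) (h : a + 1 < 2 ^ m) :
    phi z = tt (a + 1) - tt a := by
  rw [tt_succ, add_sub_cancel_left, phi]
  congr 2
  apply valuation_eq (m := m) (by omega) h
  have := R_add_nat m 1 z
  rw [ha, Nat.mod_eq_of_lt h] at this
  simpa using this

theorem val_add_pow {v b : ℕ} (h0 : 0 < b) (hb : b < 2 ^ v) :
    padicValNat 2 (2 ^ v + b) = padicValNat 2 b := by
  have h1 : ((2 ^ v + b : ℕ) : ℤ_[2]).valuation = padicValNat 2 (2 ^ v + b) := by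
    apply valuation_eq (m := v + 1) (by omega) (by rw [pow_succ]; omega)
    rw [R_natCast, Nat.mod_eq_of_lt (by rw [pow_succ]; omega)]
  have h2 : ((2 ^ v + b : ℕ) : ℤ_[2]).valuation = padicValNat 2 b := by
    apply valuation_eq (m := v) h0 hb
    rw [R_natCast, Nat.add_mod_left, Nat.mod_eq_of_lt hb]
  rw [← h1, h2]

theorem tt_pow_add_aux (v : ℕ) : ∀ b, b < 2 ^ v → tt (2 ^ v + b) = tt (2 ^ v) + tt b := by
  intro b
  induction b with
  | zero => intro _; simp [tt_zero]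
  | succ b ih =>
    intro hb
    rw [← add_assoc, tt_succ, ih (by omega), add_assoc (2 ^ v) b 1, val_add_pow (by omega) hb,
      tt_succ b, add_assoc]

theorem tt_pow (v : ℕ) : tt (2 ^ v) = 1 := by
  cases v with
  | zero =>
    have h := tt_succ 0
    rw [tt_zero] at h
    simpa using h
  | succ v =>
    obtain ⟨s, hs⟩ : ∃ s, 2 ^ v = s + 1 := ⟨2 ^ v - 1, by have := Nat.two_pow_pos v; omega⟩
    have h1 : tt (2 ^ v + s) = tt (2 ^ v) + tt s := tt_pow_add_aux v s (by omega)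
    have h2 : tt (2 ^ (v + 1)) = tt (2 ^ v + s) + (1 + ((v + 1 : ℕ) : ZMod 2)) := by
      have : 2 ^ (v + 1) = (2 ^ v + s) + 1 := by rw [pow_succ]; omega
      have h3 : padicValNat 2 (2 ^ v + s + 1) = v + 1 := by
        rw [← this, padicValNat.prime_pow]
      rw [this, tt_succ, h3]
    have h4 : tt (2 ^ v) = tt s + (1 + ((v : ℕ) : ZMod 2)) := by
      have h3 : padicValNat 2 (s + 1) = v := by
        rw [← hs, padicValNat.prime_pow]
      rw [hs, tt_succ, h3]
    rw [h2, h1, h4]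
    push_cast
    generalize tt s = x
    generalize (v : ZMod 2) = y
    revert x y
    decide

theorem tt_pow_add {v b : ℕ} (hb : b < 2 ^ v) : tt (2 ^ v + b) = tt b + 1 := by
  rw [tt_pow_add_aux v b hb, tt_pow, add_comm]

/-- the space of the extension -/
abbrev Om : Type := ℤ_[2] × ZMod 2

/-- the Thue-Morse extension of the odometer -/
noncomputable def T : Om ≃ Om where
  toFun w := (w.1 + 1, w.2 + phi w.1)
  invFun w := (w.1 - 1, w.2 - phi (w.1 - 1))
  left_inv w := by simp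
  right_inv w := by simp

theorem T_apply (w : Om) : T w = (w.1 + 1, w.2 + phi w.1) := rfl

theorem T_symm_apply (w : Om) : T.symm w = (w.1 - 1, w.2 - phi (w.1 - 1)) := rfl

theorem T_iter_fst (k : ℕ) (w : Om) : ((⇑T)^[k] w).1 = w.1 + k := by
  induction k with
  | zero => simp
  | succ k ih =>
    rw [Function.iterate_succ', Function.comp_apply, T_apply, ih]
    push_cast
    ring

theorem T_iter {m k : ℕ} (w : Om) (h : R m w.1 + k < 2 ^ m) :
    (⇑T)^[k] w = (w.1 + k, w.2 + (tt (R m w.1 + k) - tt (R m w.1))) := by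
  induction k with
  | zero => simp
  | succ k ih =>
    rw [Function.iterate_succ', Function.comp_apply, ih (by omega), T_apply]
    have h1 : R m (w.1 + k) = R m w.1 + k := by
      rw [R_add_nat, Nat.mod_eq_of_lt (by omega)]
    have h2 := phi_eq h1 (by omega)
    simp only [h2]
    ext
    · push_cast
      ring
    · simp only [← add_assoc]
      ring

/-- `T ^ (2 ^ v)` when the digit `v` is `0` -/
theorem T_pow_flip {v : ℕ} (w : Om) (h : R (v + 1) w.1 < 2 ^ v) :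
    (⇑T)^[2 ^ v] w = (w.1 + (2 ^ v : ℕ), w.2 + 1) := by
  rw [T_iter (m := v + 1) w (by rw [pow_succ]; omega)]
  congr 2
  rw [add_comm (R (v + 1) w.1), tt_pow_add h]
  ring

/-- `T ^ (2 ^ v)` when the digits `v` and `v + 1` are `1` and `0` -/
theorem T_pow_keep {v : ℕ} (w : Om) (h : R (v + 2) w.1 / 2 ^ v = 1) :
    (⇑T)^[2 ^ v] w = (w.1 + (2 ^ v : ℕ), w.2) := by
  have hp := Nat.two_pow_pos v
  obtain ⟨b, hb, hab⟩ : ∃ b, b < 2 ^ v ∧ R (v + 2) w.1 = 2 ^ v + b := by
    refine ⟨R (v + 2) w.1 % 2 ^ v, Nat.mod_lt _ hp, ?_⟩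
    have := Nat.div_add_mod (R (v + 2) w.1) (2 ^ v)
    rw [h] at this
    omega
  rw [T_iter (m := v + 2) w (by rw [hab, pow_add]; omega), hab]
  have h1 : 2 ^ v + b + 2 ^ v = 2 ^ (v + 1) + b := by rw [pow_succ]; ring
  rw [h1, tt_pow_add hb, tt_pow_add (by rw [pow_succ]; omega)]
  simp

end Pool.Agent.H110.TP
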