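import Mathlib
import Pool.Agent.H110.TP.A1

/-!
# The Thue-Morse extension of the 2-adic odometer: measure
-/

set_option autoImplicit false

namespace Pool.Agent.H110.TP

open PadicInt MeasureTheory Set Filter Topology
open scoped ENNReal symmDiff

noncomputable instance instMSZ : MeasurableSpace ℤ_[2] := borel _

instance instBSZ : BorelSpace ℤ_[2] := ⟨rfl⟩

instance instBSM : BorelSpace (ZMod 2) := ⟨by
  rw [borel_eq_top_of_discrete]
  rfl⟩

theorem near_iff (m : ℕ) (z w : ℤ_[2]) : ‖w - z‖ ≤ (2 : ℝ) ^ (-(m : ℤ)) ↔ R m w = R m z := by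
  have h := norm_le_pow_iff_mem_span_pow (w - z) m
  simp only [Nat.cast_ofNat] at h
  rw [h, dvd_iff_R, R, ZMod.val_eq_zero, map_sub, sub_eq_zero, ← cast_R, ← cast_R]
  constructor
  · intro h
    rw [ZMod.natCast_eq_natCast_iff', Nat.mod_eq_of_lt (R_lt _ _), Nat.mod_eq_of_lt (R_lt _ _)] at h
    exact h
  · intro h
    rw [h]

theorem isOpen_R (m a : ℕ) : IsOpen {z : ℤ_[2] | R m z = a} := by
  rw [Metric.isOpen_iff]
  intro z hz
  refine ⟨(2 : ℝ) ^ (-(m : ℤ)), by positivity, ?_⟩
  intro w hw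
  rw [Metric.mem_ball, dist_eq_norm] at hw
  have := (near_iff m z w).1 hw.le
  rw [mem_ofPred_eq, this]
  exact hz

theorem measurable_R (m : ℕ) : Measurable (R m) :=
  measurable_to_countable' fun a => (isOpen_R m a).measurableSet

theorem R_zero (m : ℕ) : R m (0 : ℤ_[2]) = 0 := by simp [R]

theorem R_eq_zero_iff (z : ℤ_[2]) : z = 0 ↔ ∀ m, R m z = 0 := by
  rw [eq_iff_R]
  simp only [R_zero]

theorem measurable_valuation : Measurable (fun z : ℤ_[2] => z.valuation) := by
  refine measurable_to_countable' fun n => ?_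
  have h : (fun z : ℤ_[2] => z.valuation) ⁻¹' {n} =
      ({z | R n z = 0} \ {z | R (n + 1) z = 0}) ∪ ({0} ∩ {_z | n = 0}) := by
    ext z
    simp only [mem_preimage, mem_singleton_iff, mem_union, Set.mem_sdiff, mem_ofPred_eq, mem_inter_iff]
    rcases eq_or_ne z 0 with rfl | hz
    · simp only [R_zero, valuation_zero, not_true_eq_false, and_false, true_and, false_or]
      exact eq_comm
    · have h1 := mem_span_pow_iff_le_valuation z hz n
      have h2 := mem_span_pow_iff_le_valuation z hz (n + 1)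
      simp only [Nat.cast_ofNat] at h1 h2
      rw [← dvd_iff_R, ← dvd_iff_R, h1, h2]
      simp only [hz, false_and, or_false]
      omega
  rw [h]
  refine MeasurableSet.union (MeasurableSet.diff ?_ ?_) (MeasurableSet.inter ?_ ?_)
  · exact (isOpen_R n 0).measurableSet
  · exact (isOpen_R (n + 1) 0).measurableSet
  · exact measurableSet_singleton _
  · exact MeasurableSet.const _

theorem measurable_phi : Measurable phi := by
  have : phi = (fun n : ℕ => (1 + (n : ZMod 2))) ∘ (fun z : ℤ_[2] => z.valuation) ∘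
      (fun z => z + 1) := rfl
  rw [this]
  exact (measurable_from_nat).comp (measurable_valuation.comp (measurable_add_const 1))

theorem measurable_T : Measurable T := by
  have : (⇑T : Om → Om) = fun w => (w.1 + 1, w.2 + phi w.1) := rfl
  rw [this]
  have h0 : Measurable (fun p : ZMod 2 × ZMod 2 => p.1 + p.2) := measurable_of_countable _
  have h1 : Measurable (fun w : Om => w.2 + phi w.1) :=
    h0.comp (measurable_snd.prodMk (measurable_phi.comp measurable_fst))
  exact (measurable_fst.add_const 1).prodMk h1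

theorem measurable_T_symm : Measurable T.symm := by
  have : (⇑T.symm : Om → Om) = fun w => (w.1 - 1, w.2 - phi (w.1 - 1)) := rfl
  rw [this]
  have h0 : Measurable (fun p : ZMod 2 × ZMod 2 => p.1 - p.2) := measurable_of_countable _
  have h1 : Measurable (fun w : Om => w.2 - phi (w.1 - 1)) :=
    h0.comp (measurable_snd.prodMk (measurable_phi.comp (measurable_fst.sub_const 1)))
  exact (measurable_fst.sub_const 1).prodMk h1

/-! ### cylinders -/

/-- the cylinder sets -/
def C (m j : ℕ) (e : ZMod 2) : Set Om := {w | R m w.1 = j ∧ w.2 = e}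

theorem isOpen_C (m j : ℕ) (e : ZMod 2) : IsOpen (C m j e) := by
  have : C m j e = (Prod.fst ⁻¹' {z : ℤ_[2] | R m z = j}) ∩ (Prod.snd ⁻¹' {e}) := by
    ext w
    simp [C]
  rw [this]
  exact ((isOpen_R m j).preimage continuous_fst).inter
    ((isOpen_discrete _).preimage continuous_snd)

theorem measurableSet_C (m j : ℕ) (e : ZMod 2) : MeasurableSet (C m j e) :=
  (isOpen_C m j e).measurableSet

/-- the family of cylinder sets -/
def CC : Set (Set Om) := {s | ∃ m j e, s = C m j e}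

theorem exists_cyl {U : Set Om} (hU : IsOpen U) {w : Om} (hw : w ∈ U) :
    ∃ m, C m (R m w.1) w.2 ⊆ U := by
  obtain ⟨u, v, hu, hv, hwu, hwv, huv⟩ := isOpen_prod_iff.1 hU w.1 w.2 hw
  obtain ⟨ε, hε, hball⟩ := Metric.isOpen_iff.1 hu w.1 hwu
  obtain ⟨m, hm⟩ := exists_pow_lt_of_lt_one hε (show ((1 : ℝ) / 2) < 1 by norm_num)
  refine ⟨m, ?_⟩
  rintro w' ⟨h1, h2⟩
  apply huv
  refine ⟨?_, ?_⟩
  · apply hball
    rw [Metric.mem_ball, dist_eq_norm]
    refine lt_of_le_of_lt ((near_iff m w.1 w'.1).2 h1) ?_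
    rw [zpow_neg, zpow_natCast]
    simpa using hm
  · rw [h2]
    exact hwv

theorem isBasis : TopologicalSpace.IsTopologicalBasis CC := by
  refine TopologicalSpace.isTopologicalBasis_of_isOpen_of_nhds ?_ ?_
  · rintro _ ⟨m, j, e, rfl⟩
    exact isOpen_C m j e
  · intro w U hw hU
    obtain ⟨m, hm⟩ := exists_cyl hU hw
    exact ⟨_, ⟨m, _, _, rfl⟩, ⟨rfl, rfl⟩, hm⟩

theorem gen_CC : (inferInstance : MeasurableSpace Om) = MeasurableSpace.generateFrom CC := by
  rw [← isBasis.borel_eq_generateFrom]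
  exact BorelSpace.measurable_eq

theorem pi_CC : IsPiSystem CC := by
  rintro _ ⟨m, j, e, rfl⟩ _ ⟨m', j', e', rfl⟩ ⟨w, ⟨h1, h2⟩, ⟨h3, h4⟩⟩
  have key : ∀ (m m' j j' : ℕ) (e e' : ZMod 2), m ≤ m' → R m w.1 = j → w.2 = e → R m' w.1 = j' →
      w.2 = e' → C m j e ∩ C m' j' e' = C m' j' e' := by
    intro m m' j j' e e' hmm h1 h2 h3 h4
    apply inter_eq_self_of_subset_right
    rintro w' ⟨h5, h6⟩
    refine ⟨?_, ?_⟩
    · rw [← h1]
      exact R_mono_eq hmm (h5.trans h3.symm)
    · rw [h6, ← h4, h2]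
  rcases le_total m m' with h | h
  · exact ⟨m', j', e', key m m' j j' e e' h h1 h2 h3 h4⟩
  · refine ⟨m, j, e, ?_⟩
    rw [inter_comm]
    exact key m' m j' j e' e h h3 h4 h1 h2

/-! ### invariant measures -/

theorem preimage_C {m j : ℕ} (hj : j + 1 < 2 ^ m) (e : ZMod 2) :
    ⇑T ⁻¹' (C m (j + 1) e) = C m j (e - (tt (j + 1) - tt j)) := by
  ext w
  have h1 : R m (w.1 + 1) = (R m w.1 + 1) % 2 ^ m := by
    have := R_add_nat m 1 w.1
    simpa using this
  simp only [mem_preimage, C, mem_ofPred_eq, T_apply]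
  have hR : R m (w.1 + 1) = j + 1 ↔ R m w.1 = j := by
    rw [h1]
    have h2 := R_lt m w.1
    rcases eq_or_lt_of_le (Nat.succ_le_of_lt h2) with h3 | h3
    · rw [show R m w.1 + 1 = 2 ^ m from h3, Nat.mod_self]
      omega
    · rw [Nat.mod_eq_of_lt (show R m w.1 + 1 < 2 ^ m from h3)]
      omega
  rw [hR]
  constructor
  · rintro ⟨h2, h3⟩
    refine ⟨h2, ?_⟩
    rw [← h3, phi_eq h2 hj]
    ring
  · rintro ⟨h2, h3⟩
    refine ⟨h2, ?_⟩
    rw [h3, phi_eq h2 hj]
    ring

section inv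

variable {ρ : Measure Om} [IsFiniteMeasure ρ] (h : MeasurePreserving T ρ ρ)

include h

theorem meas_C_step {m : ℕ} : ∀ j, j < 2 ^ m → ∀ e, ρ (C m j e) = ρ (C m 0 (e - tt j)) := by
  intro j
  induction j with
  | zero => intro _ e; simp [tt_zero]
  | succ j ih =>
    intro hj e
    rw [← h.measure_preimage (measurableSet_C _ _ _).nullMeasurableSet, preimage_C hj,
      ih (by omega)]
    congr 2
    ring

omit h in
theorem C_zero_eq (m : ℕ) (e : ZMod 2) : C m 0 e = C (m + 1) 0 e ∪ C (m + 1) (2 ^ m) e := by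
  ext w
  simp only [C, mem_ofPred_eq, mem_union]
  have h1 := R_mod (Nat.le_succ m) w.1
  have h2 := R_lt (m + 1) w.1
  have h3 := Nat.two_pow_pos m
  rw [← h1]
  have h4 : R (m + 1) w.1 % 2 ^ m = 0 ↔ (R (m + 1) w.1 = 0 ∨ R (m + 1) w.1 = 2 ^ m) := by
    rw [← Nat.dvd_iff_mod_eq_zero]
    constructor
    · rintro ⟨c, hc⟩
      rw [hc, pow_succ] at h2
      have : c < 2 := by
        by_contra hcon
        have : 2 ^ m * 2 ≤ 2 ^ m * c := Nat.mul_le_mul_left _ (by omega)
        omega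
      interval_cases c <;> simp [hc]
    · rintro (h | h) <;> rw [h]
      exact dvd_zero _
  rw [Nat.succ_eq_add_one, h4]
  tauto

theorem meas_C_two {m : ℕ} (e : ZMod 2) :
    ρ (C m 0 e) = ρ (C (m + 1) 0 0) + ρ (C (m + 1) 0 1) := by
  rw [C_zero_eq, measure_union _ (measurableSet_C _ _ _),
    meas_C_step h (2 ^ m) (by rw [pow_succ]; have := Nat.two_pow_pos m; omega), tt_pow]
  · have : e = 0 ∨ e = 1 := by revert e; decide
    rcases this with rfl | rfl
    · rfl
    · rw [add_comm]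
      rfl
  · rw [Set.disjoint_left]
    rintro w ⟨h1, _⟩ ⟨h2, _⟩
    have := Nat.two_pow_pos m
    omega

theorem meas_C_const {m j : ℕ} (hj : j < 2 ^ m) (e : ZMod 2) : ρ (C m j e) = ρ (C m 0 0) := by
  rw [meas_C_step h j hj, meas_C_two h (m := m) (e - tt j), ← meas_C_two h (m := m) 0]

theorem meas_C_aux (m : ℕ) : ρ (C m 0 0) * 2 ^ (m + 1) = ρ univ := by
  induction m with
  | zero =>
    have h1 : (univ : Set Om) = C 0 0 0 ∪ C 0 0 1 := by
      ext w
      have h2 := R_lt 0 w.1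
      have h3 : w.2 = 0 ∨ w.2 = 1 := by
        generalize w.2 = e
        revert e
        decide
      have h4 : R 0 w.1 = 0 := by simpa using h2
      simp only [C, mem_univ, mem_union, mem_ofPred_eq, h4, true_and, true_iff]
      exact h3
    rw [h1, measure_union _ (measurableSet_C _ _ _), meas_C_const h (by norm_num) 1]
    · ring
    · rw [Set.disjoint_left]
      rintro w ⟨_, h1⟩ ⟨_, h2⟩
      rw [h1] at h2
      exact absurd h2 (by decide)
  | succ m ih =>
    rw [← ih, meas_C_two h (m := m) 0, meas_C_const h (m := m + 1) (Nat.two_pow_pos _) 1]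
    ring

theorem meas_C {m j : ℕ} (hj : j < 2 ^ m) (e : ZMod 2) : ρ (C m j e) * 2 ^ (m + 1) = ρ univ := by
  rw [meas_C_const h hj, meas_C_aux h]

end inv

theorem C_empty {m j : ℕ} (hj : ¬ j < 2 ^ m) (e : ZMod 2) : C m j e = ∅ := by
  ext w
  simp only [C, mem_ofPred_eq, mem_empty_iff_false, iff_false]
  rintro ⟨h, _⟩
  exact hj (h ▸ R_lt m w.1)

theorem unique_inv {ρ ρ' : Measure Om} [IsFiniteMeasure ρ] [IsFiniteMeasure ρ']
    (h : MeasurePreserving T ρ ρ) (h' : MeasurePreserving T ρ' ρ') (hu : ρ univ = ρ' univ) :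
    ρ = ρ' := by
  refine ext_of_generate_finite CC gen_CC pi_CC ?_ hu
  rintro _ ⟨m, j, e, rfl⟩
  by_cases hj : j < 2 ^ m
  · have h1 := meas_C h hj e
    have h2 := meas_C h' hj e
    have h3 : ρ (C m j e) * 2 ^ (m + 1) = ρ' (C m j e) * 2 ^ (m + 1) := by rw [h1, h2, hu]
    exact (ENNReal.mul_left_inj (by positivity) (by finiteness)).1 h3
  · rw [C_empty hj, measure_empty, measure_empty]

end Pool.Agent.H110.TP
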