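import Mathlib
import Pool.Agent.H110.TP.A2

/-!
# The Thue-Morse extension of the 2-adic odometer: ergodic, partially rigid
-/

set_option autoImplicit false

namespace Pool.Agent.H110.TP

open PadicInt MeasureTheory Set Filter Topology
open scoped ENNReal symmDiff

/-- Haar probability measure on the 2-adic integers -/
noncomputable def lam : Measure ℤ_[2] := Measure.addHaarMeasure ⊤

/-- uniform probability measure on the group with two elements -/
noncomputable def nu : Measure (ZMod 2) := Measure.addHaarMeasure ⊤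

instance : IsProbabilityMeasure lam := ⟨by
  have := Measure.addHaarMeasure_self (K₀ := (⊤ : TopologicalSpace.PositiveCompacts ℤ_[2]))
  simpa [lam] using this⟩

instance : IsProbabilityMeasure nu := ⟨by
  have := Measure.addHaarMeasure_self (K₀ := (⊤ : TopologicalSpace.PositiveCompacts (ZMod 2)))
  simpa [nu] using this⟩

instance : lam.IsAddHaarMeasure := by unfold lam; infer_instance

instance : nu.IsAddHaarMeasure := by unfold nu; infer_instance

/-- the invariant probability measure of the extension -/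
noncomputable def P : Measure Om := lam.prod nu

instance : IsProbabilityMeasure P := by unfold P; infer_instance

theorem mp_T : MeasurePreserving T P P := by
  have h1 : MeasurePreserving (fun z : ℤ_[2] => z + 1) lam lam := measurePreserving_add_right lam 1
  have h0 : Measurable (fun p : ZMod 2 × ZMod 2 => p.2 + p.1) := measurable_of_countable _
  have h2 : Measurable (Function.uncurry (fun (z : ℤ_[2]) (e : ZMod 2) => e + phi z)) :=
    h0.comp ((measurable_phi.comp measurable_fst).prodMk measurable_snd)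
  have h3 : ∀ᵐ z ∂lam, Measure.map ((fun (z : ℤ_[2]) (e : ZMod 2) => e + phi z) z) nu = nu :=
    Eventually.of_forall fun z => map_add_right_eq_self nu (phi z)
  exact MeasurePreserving.skew_product h1 h2 h3

/-- translation of the first coordinate -/
noncomputable def tau (a : ℤ_[2]) (w : Om) : Om := (w.1 + a, w.2)

theorem mp_tau (a : ℤ_[2]) : MeasurePreserving (tau a) P P :=
  (measurePreserving_add_right lam a).prod (MeasurePreserving.id nu)

theorem ergodic_T : Ergodic T P := by
  refine ⟨mp_T, ⟨?_⟩⟩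
  intro E hE hinv
  have h1 : MeasurePreserving T (P.restrict E) (P.restrict E) := by
    have := mp_T.restrict_preimage hE
    rwa [hinv] at this
  have h2 : MeasurePreserving T (P E • P) (P E • P) := mp_T.smul_measure (P E)
  have : IsFiniteMeasure (P E • P) := Measure.smul_finite P (measure_ne_top P E)
  have h3 : P.restrict E = P E • P := by
    refine unique_inv h1 h2 ?_
    simp
  have h4 : (P.restrict E) Eᶜ = 0 := by
    rw [Measure.restrict_apply hE.compl, compl_inter_self, measure_empty]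
  rw [h3, Measure.smul_apply, smul_eq_mul, mul_eq_zero] at h4
  rw [Filter.eventuallyConst_set']
  rcases h4 with h4 | h4
  · left
    exact ae_eq_empty.2 h4
  · right
    exact ae_eq_univ.2 h4

/-- the digits `v`, `v + 1` -/
noncomputable def dg (v : ℕ) (w : Om) : ℕ := R (v + 2) w.1 / 2 ^ v

theorem dg_lt (v : ℕ) (w : Om) : dg v w < 4 := by
  have := R_lt (v + 2) w.1
  rw [dg]
  rw [Nat.div_lt_iff_lt_mul (Nat.two_pow_pos v)]
  rw [pow_add] at this
  omega

theorem measurable_dg (v : ℕ) : Measurable (dg v) :=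
  (measurable_from_nat (f := fun n => n / 2 ^ v)).comp ((measurable_R (v + 2)).comp measurable_fst)

theorem dg_add_nat (v q : ℕ) (w : Om) :
    dg v (w.1 + ((2 ^ v * q : ℕ) : ℤ_[2]), w.2) = (dg v w + q) % 4 := by
  have hp := Nat.two_pow_pos v
  simp only [dg]
  rw [R_add_nat, show 2 ^ (v + 2) = 2 ^ v * 4 by rw [pow_add]; norm_num,
    Nat.mod_mul_right_div_self, Nat.add_mul_div_left _ _ hp]

/-- the four values of the pair of digits `v`, `v + 1` split a set invariant under the translation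
by `2 ^ v` into parts of equal measure -/
theorem split {v : ℕ} {B : Set Om} (hB : MeasurableSet B)
    (hinv : ∀ w : Om, (w.1 + ((2 ^ v : ℕ) : ℤ_[2]), w.2) ∈ B ↔ w ∈ B) {c : ℕ} (hc : c < 4) :
    P (B ∩ {w | dg v w = c}) * 4 = P B := by
  have hms : ∀ c, MeasurableSet (B ∩ {w | dg v w = c}) := fun c =>
    hB.inter (measurable_dg v (measurableSet_singleton c))
  have step : ∀ c, c < 4 → P (B ∩ {w | dg v w = (c + 1) % 4}) = P (B ∩ {w | dg v w = c}) := by
    intro c hc
    rw [← (mp_tau ((2 ^ v : ℕ) : ℤ_[2])).measure_preimage (hms _).nullMeasurableSet]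
    congr 1
    ext w
    have h1 := dg_add_nat v 1 w
    rw [mul_one] at h1
    simp only [mem_preimage, mem_inter_iff, tau, mem_ofPred_eq, hinv, h1]
    have h2 := dg_lt v w
    constructor
    · rintro ⟨h3, h4⟩
      exact ⟨h3, by omega⟩
    · rintro ⟨h3, h4⟩
      exact ⟨h3, by omega⟩
  have s0 := step 0 (by norm_num)
  have s1 := step 1 (by norm_num)
  have s2 := step 2 (by norm_num)
  norm_num at s0 s1 s2
  have hsum : P B = P (B ∩ {w | dg v w = 0}) + P (B ∩ {w | dg v w = 1}) +
      P (B ∩ {w | dg v w = 2}) + P (B ∩ {w | dg v w = 3}) := by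
    have hB4 : B = ⋃ c ∈ Finset.range 4, (B ∩ {w | dg v w = c}) := by
      ext w
      simp only [mem_iUnion, Finset.mem_range, mem_inter_iff, mem_ofPred_eq]
      constructor
      · intro h
        exact ⟨dg v w, dg_lt v w, h, rfl⟩
      · rintro ⟨_, _, h, _⟩
        exact h
    conv_lhs => rw [hB4]
    rw [measure_biUnion_finset _ (fun c _ => hms c)]
    · simp [Finset.sum_range_succ]
    · intro i _ j _ hij
      rw [Function.onFun, Set.disjoint_left]
      rintro w ⟨_, h1⟩ ⟨_, h2⟩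
      exact hij (h1.symm.trans h2)
  rw [hsum, s2, s1, s0]
  have : P (B ∩ {w | dg v w = c}) = P (B ∩ {w | dg v w = 0}) := by
    interval_cases c
    · rfl
    · rw [s0]
    · rw [s1, s0]
    · rw [s2, s1, s0]
  rw [this]
  ring

/-! ### approximation by sets of finite level -/

/-- membership is decided by the residue modulo `2 ^ m` and the second coordinate -/
def Lev (m : ℕ) (B : Set Om) : Prop :=
  ∀ w w' : Om, R m w.1 = R m w'.1 → w.2 = w'.2 → w ∈ B → w' ∈ B

theorem Lev.mono {m m' : ℕ} (hm : m ≤ m') {B : Set Om} (h : Lev m B) : Lev m' B :=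
  fun w w' h1 h2 h3 => h w w' (R_mono_eq hm h1) h2 h3

theorem Lev.compl {m : ℕ} {B : Set Om} (h : Lev m B) : Lev m Bᶜ :=
  fun w w' h1 h2 h3 h4 => h3 (h w' w h1.symm h2.symm h4)

theorem Lev.measurable {m : ℕ} {B : Set Om} (h : Lev m B) : MeasurableSet B := by
  have h1 : B = (fun w : Om => (R m w.1, w.2)) ⁻¹' ((fun w : Om => (R m w.1, w.2)) '' B) := by
    ext w
    constructor
    · intro hw
      exact ⟨w, hw, rfl⟩
    · rintro ⟨w', hw', h2⟩
      simp only [Prod.mk.injEq] at h2
      exact h w' w h2.1 h2.2 hw'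
  rw [h1]
  have h2 : Measurable (fun w : Om => (R m w.1, w.2)) :=
    ((measurable_R m).comp measurable_fst).prodMk measurable_snd
  exact h2 (Set.to_countable _).measurableSet

theorem dense_Lev : P.MeasureDense {B | ∃ m, Lev m B} := by
  have hA : IsSetAlgebra {B : Set Om | ∃ m, Lev m B} := by
    refine ⟨?_, ?_, ?_⟩
    · exact ⟨0, fun w w' _ _ h => h.elim⟩
    · rintro s ⟨m, hm⟩
      exact ⟨m, hm.compl⟩
    · rintro s t ⟨m, hm⟩ ⟨m', hm'⟩
      refine ⟨max m m', ?_⟩
      rintro w w' h1 h2 (h3 | h3)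
      · exact Or.inl (hm.mono (le_max_left _ _) w w' h1 h2 h3)
      · exact Or.inr (hm'.mono (le_max_right _ _) w w' h1 h2 h3)
  refine Measure.MeasureDense.of_generateFrom_isSetAlgebra_finite (μ := P) hA ?_
  · apply le_antisymm
    · refine (le_of_eq gen_CC).trans ?_
      apply MeasurableSpace.generateFrom_mono
      rintro _ ⟨m, j, e, rfl⟩
      refine ⟨m, ?_⟩
      rintro w w' h1 h2 ⟨h3, h4⟩
      exact ⟨h1 ▸ h3, h2 ▸ h4⟩
    · apply MeasurableSpace.generateFrom_le
      rintro s ⟨m, hm⟩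
      exact hm.measurable

theorem T_iter_mp (n : ℕ) : MeasurePreserving ((⇑T)^[n]) P P := mp_T.iterate n

theorem partial_T {B : Set Om} (hB : MeasurableSet B) :
    P B / 4 ≤ liminf (fun k : ℕ => P (B ∩ (⇑T)^[2 ^ k] ⁻¹' B)) atTop := by
  apply ENNReal.le_of_forall_pos_le_add
  intro ε hε _
  obtain ⟨B', ⟨m, hm⟩, hBB⟩ := dense_Lev.approx B hB (measure_ne_top _ _) (ε / 3) (by positivity)
  have hε3 : ENNReal.ofReal ((ε : ℝ) / 3) * 3 = ε := by
    rw [show (3 : ℝ≥0∞) = ENNReal.ofReal 3 by simp, ← ENNReal.ofReal_mul (by positivity)]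
    rw [div_mul_cancel₀ _ (by norm_num)]
    exact ENNReal.ofReal_coe_nnreal
  rw [← tsub_le_iff_right]
  apply le_liminf_of_le
  · isBoundedDefault
  filter_upwards [eventually_ge_atTop m] with k hk
  rw [tsub_le_iff_right]
  have hB' : MeasurableSet B' := hm.measurable
  have hinv : ∀ w : Om, (w.1 + ((2 ^ k : ℕ) : ℤ_[2]), w.2) ∈ B' ↔ w ∈ B' := by
    intro w
    have h1 : R m (w.1 + ((2 ^ k : ℕ) : ℤ_[2])) = R m w.1 := by
      rw [R_add_nat, ← R_mod hk w.1]
      have h2 : 2 ^ m ∣ 2 ^ k := pow_dvd_pow 2 hk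
      rw [R_mod hk w.1, Nat.add_mod, Nat.mod_eq_zero_of_dvd h2, add_zero, Nat.mod_mod,
        Nat.mod_eq_of_lt (R_lt m w.1)]
    constructor
    · exact fun h => hm (w.1 + ((2 ^ k : ℕ) : ℤ_[2]), w.2) w h1 rfl h
    · exact fun h => hm w (w.1 + ((2 ^ k : ℕ) : ℤ_[2]), w.2) h1.symm rfl h
  have h1 := split hB' hinv (c := 1) (by norm_num)
  have h2 : P (B' ∩ {w | dg k w = 1}) ≤
      P (B ∩ (⇑T)^[2 ^ k] ⁻¹' B) + (P (B ∆ B') + P (B ∆ B')) := by
    have h3 : B' ∩ {w | dg k w = 1} ⊆
        (B ∩ (⇑T)^[2 ^ k] ⁻¹' B) ∪ ((B ∆ B') ∪ (⇑T)^[2 ^ k] ⁻¹' (B ∆ B')) := by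
      rintro w ⟨h4, h5⟩
      have h6 : (⇑T)^[2 ^ k] w ∈ B' := by
        rw [T_pow_keep w h5]
        exact (hinv w).2 h4
      by_cases h7 : w ∈ B
      · by_cases h8 : (⇑T)^[2 ^ k] w ∈ B
        · exact Or.inl ⟨h7, h8⟩
        · exact Or.inr (Or.inr (Or.inr ⟨h6, h8⟩))
      · exact Or.inr (Or.inl (Or.inr ⟨h4, h7⟩))
    refine (measure_mono h3).trans ((measure_union_le _ _).trans ?_)
    gcongr
    refine (measure_union_le _ _).trans ?_
    rw [(T_iter_mp (2 ^ k)).measure_preimage (hB.symmDiff hB').nullMeasurableSet]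
  have h4 : P B ≤ P B' + P (B ∆ B') := by
    have : B ⊆ B' ∪ (B ∆ B') := by
      intro w hw
      by_cases h : w ∈ B'
      · exact Or.inl h
      · exact Or.inr (Or.inl ⟨hw, h⟩)
    exact (measure_mono this).trans (measure_union_le _ _)
  have h5 : P B' / 4 = P (B' ∩ {w | dg k w = 1}) := by
    rw [← h1, ENNReal.mul_div_cancel_right (by norm_num) (by norm_num)]
  calc P B / 4 ≤ (P B' + P (B ∆ B')) / 4 := by gcongr
    _ = P B' / 4 + P (B ∆ B') / 4 := ENNReal.add_div
    _ ≤ P B' / 4 + P (B ∆ B') := by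
        gcongr
        exact ENNReal.div_le_of_le_mul (le_mul_of_one_le_right (zero_le) (by norm_num))
    _ ≤ (P (B ∩ (⇑T)^[2 ^ k] ⁻¹' B) + (P (B ∆ B') + P (B ∆ B'))) + P (B ∆ B') := by
        rw [h5]
        gcongr
    _ = P (B ∩ (⇑T)^[2 ^ k] ⁻¹' B) + P (B ∆ B') * 3 := by ring
    _ ≤ P (B ∩ (⇑T)^[2 ^ k] ⁻¹' B) + ENNReal.ofReal ((ε : ℝ) / 3) * 3 := by gcongr
    _ = P (B ∩ (⇑T)^[2 ^ k] ⁻¹' B) + ε := by rw [hε3]

end Pool.Agent.H110.TP
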