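import Mathlib
import Pool.Agent.H110.TP.A3

/-!
# The Toeplitz coding
-/

set_option autoImplicit false

namespace Pool.Agent.H110.TP

open PadicInt MeasureTheory Set Filter Topology
open scoped ENNReal symmDiff

/-- endpoints of the blocks of digits: the block `k` has length `k + 3` -/
def mm : ℕ → ℕ
  | 0 => 0
  | k + 1 => mm k + (k + 3)

theorem mm_succ (k : ℕ) : mm (k + 1) = mm k + (k + 3) := rfl

theorem mm_mono : Monotone mm := monotone_nat_of_le_succ fun k => by rw [mm_succ]; omega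

theorem le_mm (k : ℕ) : k ≤ mm k := by
  induction k with
  | zero => simp
  | succ k ih => rw [mm_succ]; omega

/-- the block `k` of digits of `z` is constant -/
def bad (k : ℕ) (z : ℤ_[2]) : Prop :=
  R (mm (k + 1)) z < 2 ^ mm k ∨ 2 ^ mm (k + 1) ≤ R (mm (k + 1)) z + 2 ^ mm k

/-- the block `k` is the first constant one -/
def Fst (k : ℕ) (z : ℤ_[2]) : Prop := bad k z ∧ ∀ i < k, ¬ bad i z

theorem bad_congr {i K : ℕ} (hi : i < K) {z z' : ℤ_[2]} (h : R (mm K) z = R (mm K) z') :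
    bad i z ↔ bad i z' := by
  have h1 : R (mm (i + 1)) z = R (mm (i + 1)) z' := R_mono_eq (mm_mono hi) h
  rw [bad, bad, h1]

theorem Fst_congr {k : ℕ} {z z' : ℤ_[2]} (h : R (mm (k + 1)) z = R (mm (k + 1)) z')
    (hF : Fst k z) : Fst k z' := by
  refine ⟨(bad_congr (Nat.lt_succ_self k) h).1 hF.1, ?_⟩
  intro i hi h2
  exact hF.2 i hi ((bad_congr (show i < k + 1 by omega) h).2 h2)

theorem exists_Fst {z : ℤ_[2]} (h : ∃ k, bad k z) : ∃ k, Fst k z := by
  classical
  exact ⟨Nat.find h, Nat.find_spec h, fun i hi => Nat.find_min h hi⟩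

theorem Fst_unique {z : ℤ_[2]} {k k' : ℕ} (h : Fst k z) (h' : Fst k' z) : k = k' := by
  rcases lt_trichotomy k k' with h1 | h1 | h1
  · exact absurd h.1 (h'.2 k h1)
  · exact h1
  · exact absurd h'.1 (h.2 k' h1)

open Classical in
/-- the coding function -/
noncomputable def code (w : Om) : ZMod 2 :=
  if h : ∃ k, Fst k w.1 then tt (R (mm (h.choose + 1) + 1) w.1) else w.2

theorem code_of_Fst {w : Om} {k : ℕ} (h : Fst k w.1) : code w = tt (R (mm (k + 1) + 1) w.1) := by
  have h1 : ∃ k, Fst k w.1 := ⟨k, h⟩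
  rw [code, dif_pos h1, Fst_unique h1.choose_spec h]

theorem code_of_none {w : Om} (h : ∀ k, ¬ bad k w.1) : code w = w.2 := by
  rw [code, dif_neg]
  rintro ⟨k, hk⟩
  exact h k hk.1

theorem code_congr {k : ℕ} {w w' : Om} (h : Fst k w.1)
    (hR : R (mm (k + 1) + 1) w.1 = R (mm (k + 1) + 1) w'.1) : code w = code w' := by
  rw [code_of_Fst h, code_of_Fst (Fst_congr (R_mono_eq (Nat.le_succ _) hR) h), hR]

/-- the integer powers of `T` -/
noncomputable def Tz (n : ℤ) (w : Om) : Om := ((T : Equiv.Perm Om) ^ n) w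

theorem Tz_zero (w : Om) : Tz 0 w = w := rfl

theorem Tz_add (a b : ℤ) (w : Om) : Tz (a + b) w = Tz a (Tz b w) := by
  rw [Tz, zpow_add]
  rfl

theorem Tz_one (w : Om) : Tz 1 w = T w := by
  rw [Tz, zpow_one]

theorem Tz_natCast (k : ℕ) (w : Om) : Tz k w = (⇑T)^[k] w := by
  rw [Tz, zpow_natCast, Equiv.Perm.iterate_eq_pow]

theorem Tz_neg_natCast (k : ℕ) (w : Om) : Tz (-k) w = (⇑T.symm)^[k] w := by
  rw [Tz, zpow_neg, zpow_natCast, ← inv_pow, Equiv.Perm.iterate_eq_pow]
  rfl

theorem Tz_fst (n : ℤ) (w : Om) : (Tz n w).1 = w.1 + n := by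
  obtain ⟨k, rfl | rfl⟩ := n.eq_nat_or_neg
  · rw [Tz_natCast, T_iter_fst]
    simp
  · have h1 : Tz k (Tz (-k) w) = w := by
      rw [← Tz_add, add_neg_cancel, Tz_zero]
    have h2 : (Tz k (Tz (-k) w)).1 = (Tz (-k) w).1 + k := by
      rw [Tz_natCast, T_iter_fst]
    rw [h1] at h2
    rw [h2]
    simp

theorem measurable_Tz (n : ℤ) : Measurable (Tz n) := by
  obtain ⟨k, rfl | rfl⟩ := n.eq_nat_or_neg
  · rw [show Tz (k : ℤ) = (⇑T)^[k] from funext (Tz_natCast k)]
    exact measurable_T.iterate k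
  · rw [show Tz (-(k : ℤ)) = (⇑T.symm)^[k] from funext (Tz_neg_natCast k)]
    exact measurable_T_symm.iterate k

/-- integer powers of `T` inside a window -/
theorem Tz_window {m a b : ℕ} {n : ℤ} {w : Om} (ha : R m w.1 = a) (hb : b < 2 ^ m)
    (h : (b : ℤ) = a + n) : Tz n w = (w.1 + n, w.2 + (tt b - tt a)) := by
  obtain ⟨k, rfl | rfl⟩ := n.eq_nat_or_neg
  · have hb' : b = a + k := by exact_mod_cast h
    rw [Tz_natCast, T_iter (m := m) w (by rw [ha]; omega), ha, hb']
    simp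
  · have h1 : R m (w.1 + ((-(k : ℤ) : ℤ) : ℤ_[2])) = b := R_add_int ha hb h
    have h2 : a = b + k := by omega
    have h3 : Tz k (w.1 + ((-(k : ℤ) : ℤ) : ℤ_[2]), w.2 + (tt b - tt a)) = w := by
      rw [Tz_natCast, T_iter (m := m) _ (by
        simp only [h1]; rw [← h2, ← ha]; exact R_lt m w.1)]
      simp only [h1, ← h2]
      ext
      · simp
      · change w.2 + (tt b - tt a) + (tt a - tt b) = w.2
        ring
    have h4 : Tz (-k) (Tz k (w.1 + ((-(k : ℤ) : ℤ) : ℤ_[2]), w.2 + (tt b - tt a))) =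
        (w.1 + ((-(k : ℤ) : ℤ) : ℤ_[2]), w.2 + (tt b - tt a)) := by
      rw [← Tz_add, neg_add_cancel, Tz_zero]
    rw [h3] at h4
    exact h4

/-- the symbolic coding -/
noncomputable def y (w : Om) : ℤ → ZMod 2 := fun n => code (Tz n w)

theorem y_T (w : Om) (n : ℤ) : y (T w) n = y w (n + 1) := by
  rw [y, y, Tz_add, Tz_one]

theorem y_Tz (a : ℤ) (w : Om) (n : ℤ) : y (Tz a w) n = y w (n + a) := by
  rw [y, y, Tz_add]

theorem measurable_code : Measurable code := by
  refine measurable_to_countable' fun c => ?_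
  have hb : ∀ k, MeasurableSet {w : Om | bad k w.1} := by
    intro k
    exact ((measurable_R _).comp measurable_fst)
      (MeasurableSet.of_discrete (s := {r : ℕ | r < 2 ^ mm k ∨ 2 ^ mm (k + 1) ≤ r + 2 ^ mm k}))
  have hF : ∀ k, MeasurableSet {w : Om | Fst k w.1} := by
    intro k
    have : {w : Om | Fst k w.1} = {w : Om | bad k w.1} ∩ ⋂ i ∈ Finset.range k,
        {w : Om | bad i w.1}ᶜ := by
      ext w
      simp [Fst]
    rw [this]
    exact (hb k).inter (Finset.measurableSet_biInter _ fun i _ => (hb i).compl)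
  have h : code ⁻¹' {c} = (⋃ k, ({w : Om | Fst k w.1} ∩
      {w : Om | tt (R (mm (k + 1) + 1) w.1) = c})) ∪ ((⋂ k, {w : Om | bad k w.1}ᶜ) ∩
      {w : Om | w.2 = c}) := by
    ext w
    simp only [mem_preimage, mem_singleton_iff, mem_union, mem_iUnion, mem_inter_iff,
      mem_ofPred_eq, mem_iInter, mem_compl_iff]
    by_cases hw : ∃ k, bad k w.1
    · obtain ⟨k, hk⟩ := exists_Fst hw
      rw [code_of_Fst hk]
      constructor
      · intro h
        exact Or.inl ⟨k, hk, h⟩
      · rintro (⟨k', hk', h⟩ | ⟨h, _⟩)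
        · rw [Fst_unique hk hk']
          exact h
        · exact absurd hk.1 (h k)
    · push Not at hw
      rw [code_of_none hw]
      constructor
      · intro h
        exact Or.inr ⟨hw, h⟩
      · rintro (⟨k', hk', h⟩ | ⟨_, h⟩)
        · exact absurd hk'.1 (hw k')
        · exact h
  rw [h]
  refine MeasurableSet.union (MeasurableSet.iUnion fun k => (hF k).inter ?_)
    ((MeasurableSet.iInter fun k => (hb k).compl).inter ?_)
  · exact ((measurable_R _).comp measurable_fst) (MeasurableSet.of_discrete (s := {r : ℕ | tt r = c}))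
  · exact measurable_snd (measurableSet_singleton c)

theorem measurable_y : Measurable y :=
  measurable_pi_lambda _ fun n => measurable_code.comp (measurable_Tz n)

/-! ### the Toeplitz sequence -/

/-- every integer has a constant block of digits -/
theorem exists_bad_int (n : ℤ) : ∃ k, bad k (n : ℤ_[2]) := by
  obtain ⟨j, rfl | rfl⟩ := n.eq_nat_or_neg
  · refine ⟨j, Or.inl ?_⟩
    have h1 : j < 2 ^ mm j := lt_of_lt_of_le Nat.lt_two_pow_self
      (Nat.pow_le_pow_right (by norm_num) (le_mm j))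
    have h2 : R (mm (j + 1)) ((j : ℤ) : ℤ_[2]) = j % 2 ^ mm (j + 1) := by
      have := R_natCast (mm (j + 1)) j
      simpa using this
    rw [h2]
    exact lt_of_le_of_lt (Nat.mod_le _ _) h1
  · rcases Nat.eq_zero_or_pos j with rfl | hj
    · refine ⟨0, Or.inl ?_⟩
      simp [R_zero, mm]
    · refine ⟨j, Or.inr ?_⟩
      have h1 : j < 2 ^ mm j := lt_of_lt_of_le Nat.lt_two_pow_self
        (Nat.pow_le_pow_right (by norm_num) (le_mm j))
      have h3 : 2 ^ mm j ≤ 2 ^ mm (j + 1) :=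
        Nat.pow_le_pow_right (by norm_num) (mm_mono (Nat.le_succ j))
      have h2 : R (mm (j + 1)) ((-(j : ℤ) : ℤ) : ℤ_[2]) = 2 ^ mm (j + 1) - j := by
        apply R_eq_of (by omega)
        rw [map_intCast, Nat.cast_sub (by omega)]
        push_cast
        have : ((2 ^ mm (j + 1) : ℕ) : ZMod (2 ^ mm (j + 1))) = 0 := ZMod.natCast_self _
        push_cast at this
        rw [this]
        ring
      rw [h2]
      omega

/-- the Toeplitz sequence -/
noncomputable def eta (n : ℤ) : ZMod 2 := code ((n : ℤ_[2]), 0)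

theorem eta_eq {k : ℕ} {n : ℤ} {w : Om} (h : Fst k w.1)
    (hR : R (mm (k + 1) + 1) w.1 = R (mm (k + 1) + 1) (n : ℤ_[2])) : eta n = code w :=
  (code_congr (w' := ((n : ℤ_[2]), 0)) h hR).symm

theorem eta_toeplitz (n : ℤ) : ∃ p : ℤ, 1 ≤ p ∧ ∀ k : ℤ, eta (n + k * p) = eta n := by
  obtain ⟨K, hK⟩ := exists_Fst (exists_bad_int n)
  refine ⟨2 ^ (mm (K + 1) + 1), one_le_pow₀ (by norm_num), ?_⟩
  intro k
  have hR : R (mm (K + 1) + 1) (n : ℤ_[2]) =
      R (mm (K + 1) + 1) ((n + k * 2 ^ (mm (K + 1) + 1) : ℤ) : ℤ_[2]) := by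
    rw [R, R, map_intCast, map_intCast]
    congr 1
    push_cast
    have : ((2 ^ (mm (K + 1) + 1) : ℕ) : ZMod (2 ^ (mm (K + 1) + 1))) = 0 := ZMod.natCast_self _
    push_cast at this
    rw [this]
    ring
  exact eta_eq (w := ((n : ℤ_[2]), 0)) hK hR

end Pool.Agent.H110.TP
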