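import Mathlib
import Pool.Agent.H110.TP.A4

/-!
# Generic points of the coding lie in the orbit closure of the Toeplitz sequence
-/

set_option autoImplicit false

namespace Pool.Agent.H110.TP

open PadicInt MeasureTheory Set Filter Topology
open scoped ENNReal symmDiff

theorem R_natCast' (m n : ℕ) : R m ((n : ℤ) : ℤ_[2]) = n % 2 ^ m := by
  have := R_natCast m n
  simpa using this

theorem R_intCast_of {m : ℕ} {n : ℤ} {b : ℕ} (hb : b < 2 ^ m) (h : (b : ℤ) = n + 2 ^ m) :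
    R m (n : ℤ_[2]) = b := by
  apply R_eq_of hb
  rw [map_intCast]
  have h1 : ((b : ℤ) : ZMod (2 ^ m)) = ((n + 2 ^ m : ℤ) : ZMod (2 ^ m)) := by rw [h]
  have h2 : ((2 ^ m : ℕ) : ZMod (2 ^ m)) = 0 := ZMod.natCast_self _
  push_cast at h1 h2
  rw [h2, add_zero] at h1
  exact h1.symm

/-- windows of the coding of a generic point occur in the Toeplitz sequence -/
theorem window {w : Om} (hw : ∀ n : ℤ, w.1 ≠ (n : ℤ_[2])) (N : ℕ) :
    ∃ s : ℤ, ∀ n : ℤ, -(N : ℤ) ≤ n → n ≤ N → eta (n + s) = y w n := by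
  classical
  -- conditions on `K`
  have h1 : ∀ n : ℤ, ∀ᶠ K in atTop, R (mm K) w.1 ≠ R (mm K) (n : ℤ_[2]) := by
    intro n
    have h2 := hw n
    rw [Ne, eq_iff_R, not_forall] at h2
    obtain ⟨m, hm⟩ := h2
    filter_upwards [eventually_ge_atTop m] with K hK h3
    exact hm (R_mono_eq (hK.trans (le_mm K)) h3)
  have h2 : ∀ n : ℤ, ∀ᶠ K in atTop, (∃ k, bad k (w.1 + n)) →
      ∃ k, Fst k (w.1 + n) ∧ mm (k + 1) + 1 ≤ mm K := by
    intro n
    by_cases h3 : ∃ k, bad k (w.1 + n)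
    · obtain ⟨k, hk⟩ := exists_Fst h3
      filter_upwards [eventually_ge_atTop (mm (k + 1) + 1)] with K hK _
      exact ⟨k, hk, hK.trans (le_mm K)⟩
    · exact Eventually.of_forall fun K h => absurd h h3
  have h3 : ∀ᶠ K in atTop, ∀ n ∈ Finset.Icc (-(N : ℤ)) N,
      R (mm K) w.1 ≠ R (mm K) (n : ℤ_[2]) ∧ ((∃ k, bad k (w.1 + n)) →
      ∃ k, Fst k (w.1 + n) ∧ mm (k + 1) + 1 ≤ mm K) := by
    rw [eventually_all_finset]
    intro n _
    exact (h1 n).and (h2 n)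
  obtain ⟨K, hK⟩ := h3.exists
  set m := mm K with hm
  set a := R m w.1 with ha
  have haN : N < a := by
    by_contra hcon
    have h4 := (hK a (by rw [Finset.mem_Icc]; omega)).1
    rw [R_natCast', Nat.mod_eq_of_lt (R_lt m w.1)] at h4
    exact h4 rfl
  have haM : a + N < 2 ^ m := by
    by_contra hcon
    have hlt : a < 2 ^ m := R_lt m w.1
    have hz : ((2 ^ m : ℕ) : ℤ) = (2 : ℤ) ^ m := by push_cast; rfl
    have h4 := (hK ((a : ℤ) - 2 ^ m) (by
      rw [Finset.mem_Icc, ← hz]; omega)).1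
    rw [R_intCast_of (b := a) hlt (by ring)] at h4
    exact h4 rfl
  -- the shift
  set M' := mm (K + 1) with hM'
  have hmM : m ≤ M' := mm_mono (Nat.le_succ K)
  have hpm : 2 ^ m ≤ 2 ^ M' := Nat.pow_le_pow_right (by norm_num) hmM
  have hδ : ∃ δ : ℕ, δ ≤ 1 ∧ (δ : ZMod 2) = w.2 - tt a := by
    generalize w.2 - tt a = e
    have : e = 0 ∨ e = 1 := by revert e; decide
    rcases this with rfl | rfl
    · exact ⟨0, by norm_num, by simp⟩
    · exact ⟨1, le_rfl, by simp⟩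
  obtain ⟨δ, hδ1, hδ2⟩ := hδ
  refine ⟨((a + δ * 2 ^ M' : ℕ) : ℤ), ?_⟩
  intro n hn1 hn2
  obtain ⟨b, hb⟩ : ∃ b : ℕ, (b : ℤ) = a + n := ⟨(a + n).toNat, by omega⟩
  have hbm : b < 2 ^ m := by omega
  have hTz : Tz n w = (w.1 + n, w.2 + (tt b - tt a)) := Tz_window ha.symm hbm hb
  have hR1 : R m (w.1 + n) = b := R_add_int ha.symm hbm hb
  have hsn : n + ((a + δ * 2 ^ M' : ℕ) : ℤ) = ((b + δ * 2 ^ M' : ℕ) : ℤ) := by
    push_cast
    rw [hb]
    ring
  rw [hsn]
  have hR2 : ∀ j, j ≤ M' → R j (((b + δ * 2 ^ M' : ℕ) : ℤ) : ℤ_[2]) = b % 2 ^ j := by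
    intro j hj
    rw [R_natCast']
    obtain ⟨c, hc⟩ := pow_dvd_pow 2 hj
    rw [hc, show b + δ * (2 ^ j * c) = b + 2 ^ j * (δ * c) by ring, Nat.add_mul_mod_self_left]
  have hR3 : ∀ j, j ≤ m → R j (w.1 + n) = R j (((b + δ * 2 ^ M' : ℕ) : ℤ) : ℤ_[2]) := by
    intro j hj
    rw [hR2 j (hj.trans hmM), ← R_mod hj, hR1]
  have hmem : n ∈ Finset.Icc (-(N : ℤ)) N := by rw [Finset.mem_Icc]; exact ⟨hn1, hn2⟩
  rw [y]
  by_cases hbad : ∃ k, bad k (w.1 + n)
  · obtain ⟨k, hk, hkm⟩ := (hK n hmem).2 hbad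
    have hk' : Fst k (Tz n w).1 := by rw [hTz]; exact hk
    refine eta_eq hk' ?_
    rw [hTz]
    exact hR3 _ hkm
  · push Not at hbad
    have hc : code (Tz n w) = w.2 + (tt b - tt a) := by
      rw [hTz]
      exact code_of_none (w := (w.1 + n, w.2 + (tt b - tt a))) hbad
    rw [hc]
    have hF : Fst K (((b + δ * 2 ^ M' : ℕ) : ℤ) : ℤ_[2]) := by
      refine ⟨Or.inl ?_, ?_⟩
      · rw [← hM', hR2 M' le_rfl, ← hm]
        exact lt_of_le_of_lt (Nat.mod_le _ _) hbm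
      · intro i hi h4
        exact hbad i ((bad_congr hi (hR3 (mm K) le_rfl)).2 h4)
    rw [eta, code_of_Fst (w := ((((b + δ * 2 ^ M' : ℕ) : ℤ) : ℤ_[2]), 0)) hF]
    change tt (R (mm (K + 1) + 1) (((b + δ * 2 ^ M' : ℕ) : ℤ) : ℤ_[2])) = _
    rw [← hM', R_natCast']
    have hbM : b < 2 ^ M' := lt_of_lt_of_le hbm hpm
    have h5 : w.2 + (tt b - tt a) = tt b + (δ : ZMod 2) := by rw [hδ2]; ring
    rw [h5]
    have hlt : b + δ * 2 ^ M' < 2 ^ (M' + 1) := by
      rw [pow_succ]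
      have : δ * 2 ^ M' ≤ 1 * 2 ^ M' := Nat.mul_le_mul_right _ hδ1
      omega
    rw [Nat.mod_eq_of_lt hlt]
    interval_cases δ
    · simp
    · rw [one_mul, add_comm b, tt_pow_add hbM]
      simp

/-- the shift -/
def sh {A : Type} (x : ℤ → A) : ℤ → A := fun n => x (n + 1)

/-- the two-sided orbit closure -/
def orb {A : Type} [TopologicalSpace A] (x : ℤ → A) : Set (ℤ → A) :=
  closure {z | ∃ k : ℤ, z = fun n => x (n + k)}

theorem y_mem_orb {w : Om} (hw : ∀ n : ℤ, w.1 ≠ (n : ℤ_[2])) : y w ∈ orb eta := by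
  choose s hs using window hw
  refine mem_closure_of_tendsto (f := fun N : ℕ => fun n : ℤ => eta (n + s N)) (b := atTop) ?_ ?_
  · rw [tendsto_pi_nhds]
    intro n
    refine tendsto_const_nhds.congr' ?_
    filter_upwards [eventually_ge_atTop n.natAbs] with N hN
    exact (hs N n (by omega) (by omega)).symm
  · exact Eventually.of_forall fun N => ⟨s N, rfl⟩

theorem meas_R_eq (m j : ℕ) : P {w | R m w.1 = j} * 2 ^ m ≤ 1 := by
  by_cases hj : j < 2 ^ m
  · have h1 : {w : Om | R m w.1 = j} = C m j 0 ∪ C m j 1 := by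
      ext w
      have h3 : w.2 = 0 ∨ w.2 = 1 := by
        generalize w.2 = e
        revert e
        decide
      simp only [C, mem_union, mem_ofPred_eq]
      tauto
    have h2 := meas_C mp_T hj 0
    have h3 := meas_C mp_T hj 1
    have h4 : P (C m j 1) = P (C m j 0) := by
      rw [meas_C_const mp_T hj, meas_C_const mp_T hj]
    rw [measure_univ] at h2
    rw [h1]
    calc P (C m j 0 ∪ C m j 1) * 2 ^ m ≤ (P (C m j 0) + P (C m j 1)) * 2 ^ m := by
          gcongr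
          exact measure_union_le _ _
      _ = P (C m j 0) * 2 ^ (m + 1) := by rw [h4]; ring
      _ = 1 := h2
      _ ≤ 1 := le_rfl
  · have : {w : Om | R m w.1 = j} = ∅ := by
      ext w
      simp only [mem_ofPred_eq, mem_empty_iff_false, iff_false]
      intro h
      exact hj (h ▸ R_lt m w.1)
    rw [this, measure_empty]
    simp

theorem meas_point (z : ℤ_[2]) : P {w | w.1 = z} = 0 := by
  by_contra hne
  obtain ⟨n, hn⟩ := ENNReal.exists_nat_mul_gt hne (ENNReal.one_ne_top)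
  have h1 : P {w | w.1 = z} ≤ P {w | R n w.1 = R n z} := by
    apply measure_mono
    intro w hw
    rw [mem_ofPred_eq] at hw ⊢
    rw [hw]
  have h2 := meas_R_eq n (R n z)
  have h3 : (n : ℝ≥0∞) * P {w | w.1 = z} ≤ 1 := by
    calc (n : ℝ≥0∞) * P {w | w.1 = z} ≤ 2 ^ n * P {w | R n w.1 = R n z} := by
          gcongr
          exact_mod_cast (Nat.lt_two_pow_self (n := n)).le
      _ = P {w | R n w.1 = R n z} * 2 ^ n := mul_comm _ _
      _ ≤ 1 := h2
  exact absurd h3 (not_le.2 hn)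

theorem ae_generic : ∀ᵐ w ∂P, ∀ n : ℤ, w.1 ≠ (n : ℤ_[2]) := by
  rw [ae_all_iff]
  intro n
  rw [ae_iff]
  have : {w : Om | ¬ w.1 ≠ (n : ℤ_[2])} = {w | w.1 = (n : ℤ_[2])} := by
    ext w
    simp
  rw [this]
  exact meas_point _

theorem ae_mem_orb : ∀ᵐ w ∂P, y w ∈ orb eta := by
  filter_upwards [ae_generic] with w hw
  exact y_mem_orb hw

end Pool.Agent.H110.TP
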