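import Mathlib
import Pool.Agent.H110.TP.A5

/-!
# Displacement of the coding: it is bounded below
-/

set_option autoImplicit false

namespace Pool.Agent.H110.TP

open PadicInt MeasureTheory Set Filter Topology
open scoped ENNReal symmDiff

theorem measurableSet_bad (k : ℕ) : MeasurableSet {w : Om | bad k w.1} :=
  ((measurable_R _).comp measurable_fst)
    (MeasurableSet.of_discrete (s := {r : ℕ | r < 2 ^ mm k ∨ 2 ^ mm (k + 1) ≤ r + 2 ^ mm k}))

theorem meas_bad (k : ℕ) : P {w | bad k w.1} ≤ (1 / 2 : ℝ≥0∞) ^ (k + 2) := by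
  set S : Finset ℕ := Finset.range (2 ^ mm k) ∪
    Finset.Ico (2 ^ mm (k + 1) - 2 ^ mm k) (2 ^ mm (k + 1)) with hS
  have hle : 2 ^ mm k ≤ 2 ^ mm (k + 1) := Nat.pow_le_pow_right (by norm_num) (mm_mono (Nat.le_succ k))
  have hcard : S.card ≤ 2 * 2 ^ mm k := by
    refine (Finset.card_union_le _ _).trans ?_
    rw [Finset.card_range, Nat.card_Ico]
    omega
  have hsub : {w : Om | bad k w.1} ⊆ ⋃ j ∈ S, {w : Om | R (mm (k + 1)) w.1 = j} := by
    intro w hw
    simp only [mem_iUnion, mem_ofPred_eq]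
    refine ⟨R (mm (k + 1)) w.1, ?_, rfl⟩
    rw [hS, Finset.mem_union, Finset.mem_range, Finset.mem_Ico]
    have h1 := R_lt (mm (k + 1)) w.1
    rcases hw with h | h
    · exact Or.inl h
    · exact Or.inr ⟨by omega, h1⟩
  have hx : ∀ j, P {w | R (mm (k + 1)) w.1 = j} ≤ (1 / 2 : ℝ≥0∞) ^ mm (k + 1) := by
    intro j
    have h1 := meas_R_eq (mm (k + 1)) j
    rw [one_div, ← ENNReal.inv_pow, ← one_div, ENNReal.le_div_iff_mul_le (by simp) (by simp)]
    exact h1
  calc P {w | bad k w.1} ≤ P (⋃ j ∈ S, {w : Om | R (mm (k + 1)) w.1 = j}) := measure_mono hsub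
    _ ≤ ∑ j ∈ S, P {w | R (mm (k + 1)) w.1 = j} := measure_biUnion_finset_le _ _
    _ ≤ ∑ _j ∈ S, (1 / 2 : ℝ≥0∞) ^ mm (k + 1) := Finset.sum_le_sum fun j _ => hx j
    _ = S.card * (1 / 2 : ℝ≥0∞) ^ mm (k + 1) := by rw [Finset.sum_const, nsmul_eq_mul]
    _ ≤ ((2 * 2 ^ mm k : ℕ) : ℝ≥0∞) * (1 / 2 : ℝ≥0∞) ^ mm (k + 1) := by gcongr
    _ = (1 / 2 : ℝ≥0∞) ^ (k + 2) := by
        have h2 : (2 : ℝ≥0∞) * (1 / 2) = 1 := by
          rw [one_div]
          exact ENNReal.mul_inv_cancel (by norm_num) (by norm_num)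
        have h3 : (2 : ℝ≥0∞) ^ (mm k + 1) * (1 / 2) ^ (mm k + 1) = 1 := by
          rw [← mul_pow, h2, one_pow]
        rw [mm_succ, show mm k + (k + 3) = (mm k + 1) + (k + 2) by ring, pow_add]
        push_cast
        rw [← mul_assoc, show (2 : ℝ≥0∞) * 2 ^ mm k = 2 ^ (mm k + 1) by rw [pow_succ]; ring, h3,
          one_mul]

/-- no constant block among the first `K` ones -/
def AK (K : ℕ) : Set Om := {w | ∀ i < K, ¬ bad i w.1}

/-- no constant block -/
def AA : Set Om := {w | ∀ i, ¬ bad i w.1}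

theorem measurableSet_AK (K : ℕ) : MeasurableSet (AK K) := by
  have : AK K = ⋂ i ∈ Finset.range K, {w : Om | bad i w.1}ᶜ := by
    ext w
    simp [AK]
  rw [this]
  exact Finset.measurableSet_biInter _ fun i _ => (measurableSet_bad i).compl

theorem measurableSet_AA : MeasurableSet AA := by
  have : AA = ⋂ i, {w : Om | bad i w.1}ᶜ := by
    ext w
    simp [AA]
  rw [this]
  exact MeasurableSet.iInter fun i => (measurableSet_bad i).compl

theorem meas_diff (K : ℕ) : P (AK K \ AA) ≤ (1 / 2 : ℝ≥0∞) ^ (K + 1) := by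
  have h1 : AK K \ AA ⊆ ⋃ i : ℕ, {w : Om | bad (i + K) w.1} := by
    rintro w ⟨h2, h3⟩
    simp only [AA, mem_ofPred_eq, not_forall, not_not] at h3
    obtain ⟨i, hi⟩ := h3
    rw [mem_iUnion]
    refine ⟨i - K, ?_⟩
    have : K ≤ i := by
      by_contra hcon
      exact h2 i (by omega) hi
    rw [mem_ofPred_eq, Nat.sub_add_cancel this]
    exact hi
  calc P (AK K \ AA) ≤ P (⋃ i : ℕ, {w : Om | bad (i + K) w.1}) := measure_mono h1
    _ ≤ ∑' i : ℕ, P {w : Om | bad (i + K) w.1} := measure_iUnion_le _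
    _ ≤ ∑' i : ℕ, (1 / 2 : ℝ≥0∞) ^ (K + 2) * (1 / 2 : ℝ≥0∞) ^ i := by
        refine ENNReal.tsum_le_tsum fun i => ?_
        refine (meas_bad (i + K)).trans (le_of_eq ?_)
        rw [← pow_add]
        congr 1
        ring
    _ = (1 / 2 : ℝ≥0∞) ^ (K + 2) * 2 := by
        rw [ENNReal.tsum_mul_left, one_div, ENNReal.tsum_geometric_two]
    _ = (1 / 2 : ℝ≥0∞) ^ (K + 1) := by
        have h2 : (1 / 2 : ℝ≥0∞) * 2 = 1 := by
          rw [one_div]
          exact ENNReal.inv_mul_cancel (by norm_num) (by norm_num)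
        rw [pow_succ, mul_assoc, h2, mul_one]

theorem meas_AK_real (K : ℕ) : (1 / 2 : ℝ) ≤ P.real (AK K) := by
  have h1 : AK 0 = univ := by
    ext w
    simp [AK]
  have h2 : P (AAᶜ) ≤ 1 / 2 := by
    have := meas_diff 0
    rw [h1, ← compl_eq_univ_sdiff] at this
    simpa using this
  have h3 : P.real (AAᶜ) ≤ 1 / 2 := by
    rw [Measure.real]
    have := ENNReal.toReal_mono (by norm_num) h2
    simpa using this
  have h4 : P.real AA = 1 - P.real (AAᶜ) := by
    have := probReal_compl_eq_one_sub (μ := P) measurableSet_AA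
    linarith
  have h5 : P.real AA ≤ P.real (AK K) :=
    measureReal_mono (fun w hw i _ => hw i) (measure_ne_top _ _)
  linarith

theorem meas_diff_real : P.real (AK 5 \ AA) ≤ 1 / 64 := by
  rw [Measure.real]
  have := ENNReal.toReal_mono (by finiteness) (meas_diff 5)
  refine this.trans (le_of_eq ?_)
  rw [ENNReal.toReal_pow]
  norm_num

/-- displacement -/
noncomputable def D (n : ℕ) : ℝ := P.real {w | y w 0 ≠ y w n}

theorem measurableSet_ne (a b : ℤ) : MeasurableSet {w : Om | y w a ≠ y w b} := by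
  have h1 : Measurable (fun w : Om => (y w a, y w b)) :=
    ((measurable_pi_apply a).comp measurable_y).prodMk ((measurable_pi_apply b).comp measurable_y)
  exact h1 ((Set.to_countable {p : ZMod 2 × ZMod 2 | p.1 ≠ p.2}).measurableSet)

theorem meas_ne_shift (a n : ℕ) : P.real {w : Om | y w a ≠ y w ((a + n : ℕ) : ℤ)} = D n := by
  have h1 : {w : Om | y w a ≠ y w ((a + n : ℕ) : ℤ)} = (⇑T)^[a] ⁻¹' {w | y w 0 ≠ y w n} := by
    ext w
    simp only [mem_ofPred_eq, mem_preimage]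
    rw [← Tz_natCast, y_Tz, y_Tz]
    simp only [zero_add]
    rw [show (n : ℤ) + a = ((a + n : ℕ) : ℤ) by push_cast; ring]
  rw [h1, D, Measure.real, Measure.real,
    (T_iter_mp a).measure_preimage (measurableSet_ne 0 n).nullMeasurableSet]

theorem D_add (a n : ℕ) : D (a + n) ≤ D a + D n := by
  rw [← meas_ne_shift a n]
  have h1 : {w : Om | y w 0 ≠ y w ((a + n : ℕ) : ℤ)} ⊆
      {w : Om | y w 0 ≠ y w a} ∪ {w : Om | y w a ≠ y w ((a + n : ℕ) : ℤ)} := by
    intro w hw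
    by_cases h : y w 0 = y w a
    · right
      intro h2
      exact hw (h.trans h2)
    · left
      exact h
  exact (measureReal_mono h1).trans (measureReal_union_le _ _)

theorem D_zero : D 0 = 0 := by
  rw [D]
  have : {w : Om | y w 0 ≠ y w ((0 : ℕ) : ℤ)} = ∅ := by
    ext w
    simp
  rw [this, measureReal_empty]

theorem D_mul (r n : ℕ) : D (r * n) ≤ r * D n := by
  induction r with
  | zero => simp [D_zero]
  | succ r ih =>
    rw [Nat.succ_mul]
    refine (D_add _ _).trans ?_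
    push_cast
    linarith

theorem AK_congr {K : ℕ} {w w' : Om} (h : R (mm K) w.1 = R (mm K) w'.1) : w ∈ AK K ↔ w' ∈ AK K := by
  constructor
  · intro h1 i hi h2
    exact h1 i hi ((bad_congr hi h).2 h2)
  · intro h1 i hi h2
    exact h1 i hi ((bad_congr hi h).1 h2)

theorem R_add_dvd {m n : ℕ} (h : 2 ^ m ∣ n) (z : ℤ_[2]) : R m (z + (n : ℤ_[2])) = R m z := by
  rw [R_add_nat]
  obtain ⟨c, rfl⟩ := h
  rw [Nat.add_mul_mod_self_left, Nat.mod_eq_of_lt (R_lt m z)]

theorem y_of_AA {w : Om} {n : ℕ} (h : (⇑T)^[n] w ∈ AA) : y w n = ((⇑T)^[n] w).2 := by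
  rw [y, Tz_natCast]
  exact code_of_none h

/-- the lower bound for the displacement along multiples of `2 ^ mm 5` -/
theorem D_core {v q : ℕ} (hv : mm 5 ≤ v) (hq : q % 2 = 1) : (1 / 32 : ℝ) ≤ D (2 ^ v * q) := by
  set n := 2 ^ v * q with hn
  set c := (1 + 3 * q) % 4 with hc
  have hc4 : c < 4 := Nat.mod_lt _ (by norm_num)
  set Z := AK 5 \ AA with hZ
  have hZm : MeasurableSet Z := (measurableSet_AK 5).diff measurableSet_AA
  have hdv : 2 ^ mm 5 ∣ 2 ^ v := pow_dvd_pow 2 hv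
  have hdn : 2 ^ mm 5 ∣ n := hdv.mul_right q
  have hinv : ∀ w : Om, (w.1 + ((2 ^ v : ℕ) : ℤ_[2]), w.2) ∈ AK 5 ↔ w ∈ AK 5 := fun w =>
    AK_congr (R_add_dvd hdv w.1)
  have h1 := split (measurableSet_AK 5) hinv hc4
  have h2 : P.real (AK 5 ∩ {w | dg v w = c}) * 4 = P.real (AK 5) := by
    rw [Measure.real, Measure.real, ← h1, ENNReal.toReal_mul]
    simp
  have hAKT : ∀ (k : ℕ) (w : Om), 2 ^ mm 5 ∣ k → w ∈ AK 5 → (⇑T)^[k] w ∈ AK 5 := by
    intro k w hk hw
    refine (AK_congr ?_).1 hw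
    rw [T_iter_fst, R_add_dvd hk]
  have hsub : AK 5 ∩ {w | dg v w = c} ⊆ Z ∪ ((⇑T)^[n] ⁻¹' Z ∪ ((⇑T)^[2 ^ v] ⁻¹' Z ∪
      ((⇑T)^[2 ^ v + n] ⁻¹' Z ∪ ({w : Om | y w 0 ≠ y w n} ∪
      {w : Om | y w (2 ^ v : ℕ) ≠ y w ((2 ^ v + n : ℕ) : ℤ)})))) := by
    rintro w ⟨hwA, hwc⟩
    by_contra hcon
    simp only [mem_union, mem_preimage, not_or] at hcon
    obtain ⟨z0, z1, z2, z3, e0, e1⟩ := hcon
    have m0 : (⇑T)^[0] w ∈ AA := by
      by_contra h
      exact z0 ⟨hwA, h⟩
    have m1 : (⇑T)^[n] w ∈ AA := by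
      by_contra h
      exact z1 ⟨hAKT n w hdn hwA, h⟩
    have m2 : (⇑T)^[2 ^ v] w ∈ AA := by
      by_contra h
      exact z2 ⟨hAKT _ w hdv hwA, h⟩
    have m3 : (⇑T)^[2 ^ v + n] w ∈ AA := by
      by_contra h
      exact z3 ⟨hAKT _ w (Nat.dvd_add hdv hdn) hwA, h⟩
    have y0 := y_of_AA m0
    have y1 := y_of_AA m1
    have y2 := y_of_AA m2
    have y3 := y_of_AA m3
    simp only [mem_ofPred_eq, not_not] at e0 e1
    rw [Nat.cast_zero] at y0
    rw [y0, y1] at e0
    rw [y2, y3] at e1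
    -- the point `w`
    have hwc' : dg v w = c := hwc
    have f0 : R (v + 1) w.1 < 2 ^ v := by
      have g1 : R (v + 1) w.1 = R (v + 2) w.1 % 2 ^ (v + 1) := (R_mod (Nat.le_succ _) w.1).symm
      have g2 : c = 0 ∨ c = 2 := by omega
      have g3 := Nat.div_add_mod (R (v + 2) w.1) (2 ^ v)
      have g4 : R (v + 2) w.1 / 2 ^ v = c := hwc'
      have g5 := Nat.mod_lt (R (v + 2) w.1) (Nat.two_pow_pos v)
      rw [g4] at g3
      rw [g1, pow_succ]
      rcases g2 with g2 | g2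
      · rw [g2, mul_zero, zero_add] at g3
        rw [← g3, Nat.mod_eq_of_lt (by omega)]
        exact g5
      · rw [g2] at g3
        rw [← g3, Nat.add_mod_left, Nat.mod_eq_of_lt (by omega)]
        exact g5
    have F0 := T_pow_flip w f0
    -- the point `T ^ n w`
    have f1 : dg v ((⇑T)^[n] w) = 1 := by
      have g1 : (⇑T)^[n] w = (w.1 + ((2 ^ v * q : ℕ) : ℤ_[2]), ((⇑T)^[n] w).2) := by
        ext
        · rw [T_iter_fst]
        · rfl
      have g2 : dg v ((⇑T)^[n] w) = dg v (w.1 + ((2 ^ v * q : ℕ) : ℤ_[2]), w.2) := by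
        rw [g1]
        rfl
      rw [g2, dg_add_nat, hwc']
      omega
    have F1 := T_pow_keep ((⇑T)^[n] w) f1
    rw [← Function.iterate_add_apply] at F1
    rw [F0, F1] at e1
    simp only [Function.iterate_zero, id_eq] at e0
    rw [e0] at e1
    have : ∀ x : ZMod 2, x + 1 ≠ x := by decide
    exact this _ e1
  have hmeas : ∀ k : ℕ, P.real ((⇑T)^[k] ⁻¹' Z) = P.real Z := by
    intro k
    rw [Measure.real, Measure.real, (T_iter_mp k).measure_preimage hZm.nullMeasurableSet]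
  have h3 : P.real (AK 5 ∩ {w | dg v w = c}) ≤ P.real Z + (P.real Z + (P.real Z +
      (P.real Z + (D n + D n)))) := by
    refine (measureReal_mono hsub).trans ?_
    refine (measureReal_union_le _ _).trans ?_
    gcongr
    refine (measureReal_union_le _ _).trans ?_
    rw [hmeas]
    gcongr
    refine (measureReal_union_le _ _).trans ?_
    rw [hmeas]
    gcongr
    refine (measureReal_union_le _ _).trans ?_
    rw [hmeas]
    gcongr
    refine (measureReal_union_le _ _).trans ?_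
    rw [meas_ne_shift]
    rfl
  have h4 := meas_diff_real
  have h5 := meas_AK_real 5
  linarith

/-- the displacement is bounded below -/
theorem D_lower {n : ℕ} (hn : 0 < n) : (1 / 32 : ℝ) / 2 ^ mm 5 ≤ D n := by
  have h1 : 2 ^ mm 5 * n ≠ 0 := by positivity
  obtain ⟨v, q, hq, hvq⟩ := Nat.exists_eq_two_pow_mul_odd h1
  have hv : mm 5 ≤ v := by
    have h2 : 2 ^ mm 5 ∣ 2 ^ v * q := ⟨n, hvq.symm⟩
    have h3 : Nat.Coprime (2 ^ mm 5) q := Nat.Coprime.pow_left _ (Nat.coprime_two_left.2 hq)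
    have h4 : 2 ^ mm 5 ∣ 2 ^ v := h3.dvd_of_dvd_mul_right h2
    exact (Nat.pow_dvd_pow_iff_le_right (by norm_num)).1 h4
  have h5 := D_core hv (Nat.odd_iff.1 hq)
  rw [← hvq] at h5
  have h6 := D_mul (2 ^ mm 5) n
  rw [div_le_iff₀ (by positivity)]
  push_cast at h6
  linarith

end Pool.Agent.H110.TP
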